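import Pool.Agent.Y782.WU.All
import Pool.Agent.Y782.WU.Lit

/-!
# The wired uniform spanning tree of a recurrent unimodular random graph is a factor of i.i.d.

MP_688e31_pr, question 1 (full answer, positive).

* Let `(G, ρ)` be a unimodular random rooted graph (infinite, connected, locally finite) that is
  recurrent almost surely. Then there is a measurable map `Φ` from vertex-labelled graphs to graphs,
  equivariant under isomorphisms, such that for almost every `G` the graph `Φ (G, U)`, `U` i.i.d.
  uniform labels on the vertices, has the law of the wired uniform spanning forest of `G`.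
* The same for finite graphs: there is such a `Φ` for which `Φ (G, U)` is a uniform spanning tree of
  `G` for every finite connected graph `G`.

Proof: killed random walk kernels and exponential races at the vertices give nested partitions of the
graph into finite clusters; the uniform spanning trees of the finite clusters are coupled
monotonically (theorem of Feder and Mihail) along the sequence of partitions, and they converge to
the wired uniform spanning tree since the free and the wired spanning forests agree on recurrent
graphs.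
-/

set_option autoImplicit false

open MeasureTheory Filter Topology
open scoped ENNReal unitInterval

namespace Pool.Agent.Results.MP_688e31_pr.FactorOfIID

-- the `MeasurableSpace (SimpleGraph V)` in the statement is the one of Mathlib
attribute [-instance] Pool.Agent.Y782.WU.gms

section defs
variable {V : Type}

open Classical in
/-- The transition probability of simple random walk on `G` from `v` to `w`. -/
noncomputable def step (G : SimpleGraph V) (v w : V) : ℝ≥0∞ :=
  if G.Adj v w then ((G.neighborSet v).ncard : ℝ≥0∞)⁻¹ else 0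

open Classical in
/-- The probability that simple random walk on `G` started at `w` is at `v` for the first time at
time `n`. -/
noncomputable def hit (G : SimpleGraph V) (v : V) : ℕ → V → ℝ≥0∞
  | 0, w => if w = v then 1 else 0
  | n + 1, w => if w = v then 0 else ∑' z, step G w z * hit G v n z

/-- Simple random walk on `G` started at any vertex returns to it almost surely. -/
def Recurrent (G : SimpleGraph V) : Prop :=
  ∀ v, ∑' n, ∑' z, step G v z * hit G v n z = 1

/-- The random rooted graph `(G, ρ)` satisfies the mass transport principle. -/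
def Unimodular {Ω : Type} [MeasurableSpace Ω] (P : Measure Ω) (G : Ω → SimpleGraph V)
    (ρ : Ω → V) : Prop :=
  ∀ f : SimpleGraph V → V → V → ℝ≥0∞, (∀ x y, Measurable (fun g => f g x y)) →
    (∀ (τ : Equiv.Perm V) (g : SimpleGraph V) (x y : V), f (g.comap τ) x y = f g (τ x) (τ y)) →
    ∫⁻ ω, ∑' x, f (G ω) (ρ ω) x ∂P = ∫⁻ ω, ∑' x, f (G ω) x (ρ ω) ∂P

/-- The law of i.i.d. uniform `[0,1]` labels on the vertices. -/
noncomputable def labels (V : Type) : Measure (V → I) :=
  Measure.infinitePi (fun _ : V => (volume : Measure I))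

/-- `Φ` is a measurable map from vertex-labelled graphs to graphs which is equivariant under
isomorphisms. -/
def IsFactorMap (Φ : SimpleGraph V → (V → I) → SimpleGraph V) : Prop :=
  Measurable (fun p : SimpleGraph V × (V → I) => Φ p.1 p.2) ∧
    ∀ (τ : Equiv.Perm V) (g : SimpleGraph V) (U : V → I),
      Φ (g.comap τ) (fun v => U (τ v)) = (Φ g U).comap τ

/-- The spanning trees of the graph obtained from `G` by identifying all vertices outside the finite
set `A`: the sets of `|A|` edges of `G`, each with an endpoint in `A`, which connect every vertex of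
`A` to the complement of `A`. -/
def wiredTrees (G : SimpleGraph V) (A : Finset V) : Set (Finset (Sym2 V)) :=
  {T | (T : Set (Sym2 V)) ⊆ G.edgeSet ∧ (∀ e ∈ T, ∃ v ∈ e, v ∈ A) ∧ T.card = A.card ∧
    ∀ v ∈ A, ∃ u, u ∉ A ∧ (SimpleGraph.fromEdgeSet (T : Set (Sym2 V))).Reachable v u}

/-- The probability that a uniformly chosen element of `wiredTrees G A` agrees with `S` on `F`. -/
noncomputable def wiredProb (G : SimpleGraph V) (A : Finset V) (F S : Finset (Sym2 V)) : ℝ :=
  (Set.ncard {T | T ∈ wiredTrees G A ∧ ∀ e ∈ F, (e ∈ T ↔ e ∈ S)} : ℝ) /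
    (Set.ncard (wiredTrees G A) : ℝ)

/-- If `U` is distributed as `labels V` then `Ψ U` is a subgraph of `G` almost surely, and it has the
law of the wired uniform spanning forest of `G`: along every exhaustion of `G` by finite connected
sets `A n`, the probabilities that the wired uniform spanning tree of `A n` agrees with `S` on a
finite set `F` of edges of `G` converge to the probability that `Ψ U` does. -/
def HasWiredLaw (G : SimpleGraph V) (Ψ : (V → I) → SimpleGraph V) : Prop :=
  (∀ᵐ U ∂(labels V), Ψ U ≤ G) ∧
    ∀ F S : Finset (Sym2 V), (F : Set (Sym2 V)) ⊆ G.edgeSet →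
      ∀ A : ℕ → Finset V, Monotone A → (∀ n, (G.induce (A n : Set V)).Preconnected) →
        (∀ v, ∃ n, v ∈ A n) →
        Tendsto (fun n => wiredProb G (A n) F S) atTop
          (𝓝 ((labels V).real {U | ∀ e ∈ F, (e ∈ (Ψ U).edgeSet ↔ e ∈ S)}))

end defs

open Classical in
lemma hit_eq {V : Type} (G : SimpleGraph V) (v : V) (n : ℕ) :
    ∀ w, hit G v n w = Pool.Agent.Y782.WU.hit G v n w := by
  induction n with
  | zero => intro w; rfl
  | succ n ih =>
    intro w
    show (if w = v then 0 else ∑' z, step G w z * hit G v n z) =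
      (if w = v then 0 else ∑' z, Pool.Agent.Y782.WU.stp G w z * Pool.Agent.Y782.WU.hit G v n z)
    split_ifs with h
    · rfl
    · apply tsum_congr
      intro z
      rw [ih z]
      rfl

lemma rec_of {V : Type} (G : SimpleGraph V) (h : Recurrent G) : Pool.Agent.Y782.WU.Rec G := by
  apply Pool.Agent.Y782.WU.ret_rec
  intro v
  rw [← h v]
  apply tsum_congr
  intro n
  apply tsum_congr
  intro z
  rw [hit_eq]
  rfl

lemma conn_of {V : Type} (G : SimpleGraph V) (A : Finset V)
    (h : (G.induce (A : Set V)).Preconnected) :
    ∀ x ∈ A, ∀ a ∈ A, a ∈ Pool.Agent.Y782.WU.cls (Pool.Agent.Y782.WU.rst G A) x := by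
  intro x hx a ha
  have h1 := h ⟨x, hx⟩ ⟨a, ha⟩
  let φ : G.induce (A : Set V) →g Pool.Agent.Y782.WU.rst G (A : Set V) :=
    { toFun := Subtype.val
      map_rel' := by
        intro p q hpq
        have hadj : G.Adj p.1 q.1 := hpq
        show (Pool.Agent.Y782.WU.rst G (A : Set V)).Adj p.1 q.1
        unfold Pool.Agent.Y782.WU.rst
        rw [SimpleGraph.fromRel_adj]
        exact ⟨hadj.ne, Or.inl ⟨hadj, p.2, q.2⟩⟩ }
  exact h1.map φ

/-- **The wired uniform spanning tree of a recurrent unimodular random graph is a factor of
i.i.d.** -/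
theorem result :
    (∀ (V Ω : Type) [Countable V] [Infinite V] [MeasurableSpace Ω] (P : Measure Ω)
      [IsProbabilityMeasure P] (G : Ω → SimpleGraph V) (ρ : Ω → V),
      Measurable G → (∀ x, MeasurableSet {ω | ρ ω = x}) →
      (∀ᵐ ω ∂P, (G ω).Connected ∧ ∀ v, ((G ω).neighborSet v).Finite) →
      (∀ᵐ ω ∂P, Recurrent (G ω)) → Unimodular P G ρ →
      ∃ Φ : SimpleGraph V → (V → I) → SimpleGraph V, IsFactorMap Φ ∧
        ∀ᵐ ω ∂P, HasWiredLaw (G ω) (Φ (G ω))) ∧
    (∀ (V : Type) [Finite V] [Nonempty V],
      ∃ Φ : SimpleGraph V → (V → I) → SimpleGraph V, IsFactorMap Φ ∧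
        ∀ G : SimpleGraph V, G.Connected → ∀ t : SimpleGraph V, t ≤ G → t.IsTree →
          (labels V).real {U | Φ G U = t} =
            1 / (Set.ncard {t : SimpleGraph V | t ≤ G ∧ t.IsTree} : ℝ)) := by
  constructor
  · intro V Ω _ _ _ P _ G ρ hG hρ hok hrec huni
    obtain ⟨Φ, h1, h2, h3⟩ := Pool.Agent.Y782.WU.main_all V Ω P G ρ hG hρ
      (by
        filter_upwards [hok] with ω hω
        exact ⟨inferInstance, inferInstance, hω.1, hω.2⟩)
      (by
        filter_upwards [hrec] with ω hω
        exact rec_of _ hω)
      huni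
    refine ⟨Φ, ⟨h2, h1⟩, ?_⟩
    filter_upwards [h3] with ω hω
    refine ⟨hω.1, ?_⟩
    intro F S hF A hA1 hA2 hA3
    exact hω.2 F S hF A hA1 (fun n => conn_of _ _ (hA2 n)) hA3
  · intro V _ _
    obtain ⟨Φ, h1, h2, h3⟩ := Pool.Agent.Y782.WU.finite_all V
    refine ⟨Φ, ⟨h2, h1⟩, ?_⟩
    intro G hG t ht htree
    classical
    obtain ⟨h4, h5⟩ := h3 G hG
    have hfin : (G.edgeSet).Finite := Set.toFinite _
    have hfin' : (t.edgeSet).Finite := Set.toFinite _
    have key : ∀ g : SimpleGraph V, g ≤ G →
        ((∀ e ∈ hfin.toFinset, (e ∈ g.edgeSet ↔ e ∈ hfin'.toFinset)) ↔ g = t) := by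
      intro g hg
      constructor
      · intro h
        apply SimpleGraph.edgeSet_injective
        ext e
        constructor
        · intro he
          have hG' : e ∈ G.edgeSet := SimpleGraph.edgeSet_mono hg he
          have := (h e (hfin.mem_toFinset.2 hG')).1 he
          exact hfin'.mem_toFinset.1 this
        · intro he
          have hG' : e ∈ G.edgeSet := SimpleGraph.edgeSet_mono ht he
          exact (h e (hfin.mem_toFinset.2 hG')).2 (hfin'.mem_toFinset.2 he)
      · rintro rfl e _
        rw [hfin'.mem_toFinset]
    have h6 := h5 hfin.toFinset hfin'.toFinset (by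
      intro e he
      exact hfin.mem_toFinset.1 he)
    have h7 : {s : SimpleGraph V | s ≤ G ∧ s.IsTree ∧
        ∀ e ∈ hfin.toFinset, (e ∈ s.edgeSet ↔ e ∈ hfin'.toFinset)} = {t} := by
      ext s
      constructor
      · rintro ⟨a1, -, a3⟩
        exact (key s a1).1 a3
      · rintro rfl
        exact ⟨ht, htree, (key s ht).2 rfl⟩
    rw [h7, Set.ncard_singleton] at h6
    have h8 : (labels V).real {U | Φ G U = t} = (labels V).real {U | ∀ e ∈ hfin.toFinset,
        (e ∈ (Φ G U).edgeSet ↔ e ∈ hfin'.toFinset)} := by
      apply measureReal_congr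
      have h9 : ∀ᵐ U ∂(labels V), Φ G U ≤ G := h4
      filter_upwards [h9] with U hU
      exact propext (key (Φ G U) hU).symm
    rw [h8]
    have h10 : (labels V).real {U | ∀ e ∈ hfin.toFinset,
        (e ∈ (Φ G U).edgeSet ↔ e ∈ hfin'.toFinset)} = _ := h6
    rw [h10, Nat.cast_one]

end Pool.Agent.Results.MP_688e31_pr.FactorOfIID
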